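import Mathlib
import Pool.Agent.V7H85.OK.Spec

/-! Piece DET1 for MP_1774d7_an. -/

set_option autoImplicit false

namespace Pool.Agent.V7H68.OK

open Polynomial Finset Matrix Pool.Agent.V7H85.OK

/-- the nodes -/
noncomputable def nd (c N : ℕ) (l : Fin N) : ℝ := 3 * (l : ℝ) + c

theorem nd_inj (c N : ℕ) : Function.Injective (nd c N) := by
  intro a b h
  unfold nd at h
  have : (a : ℝ) = b := by linarith
  exact Fin.ext (by exact_mod_cast this)

theorem interp (c N : ℕ) (P : ℝ[X]) (hP : P.degree < (N : WithBot ℕ)) (x : ℝ) :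
    P.eval x = ∑ l : Fin N, (Lagrange.basis (univ : Finset (Fin N)) (nd c N) l).eval x *
      P.eval (nd c N l) := by
  have h := Lagrange.eq_interpolate (s := (univ : Finset (Fin N))) (v := nd c N) (f := P)
    (nd_inj c N).injOn (by simpa using hP)
  have h2 := congrArg (fun Q : ℝ[X] => Q.eval x) h
  simp only [Lagrange.interpolate_apply, eval_finsetSum, eval_mul, eval_C] at h2
  rw [h2]
  exact Finset.sum_congr rfl fun l _ => mul_comm _ _

/-- the values of the falling factorials -/
noncomputable def Wr (c N : ℕ) : Matrix (Fin N) (Fin N) ℝ := fun l j =>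
  ((3 * (l : ℕ) + c).descFactorial j : ℝ)

theorem eval_nd (c N : ℕ) (l : Fin N) (j : ℕ) :
    (descPochhammer ℝ j).eval (nd c N l) = ((3 * (l : ℕ) + c).descFactorial j : ℝ) := by
  rw [← descPochhammer_eval_eq_descFactorial]
  congr 1
  unfold nd
  push_cast
  ring

theorem Wr_det (c N : ℕ) : (Wr c N).det ≠ 0 := by
  have h := Matrix.det_eval_matrixOfPolynomials_eq_det_vandermonde (nd c N)
    (fun j : Fin N => descPochhammer ℝ (j : ℕ)) (fun j => descPochhammer_natDegree ℝ j)
    (fun j => monic_descPochhammer ℝ j)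
  have h2 : (Matrix.of fun i j : Fin N => (descPochhammer ℝ (j : ℕ)).eval (nd c N i)) = Wr c N := by
    ext i j
    exact eval_nd c N i j
  rw [h2] at h
  rw [← h]
  exact Matrix.det_vandermonde_ne_zero_iff.2 (nd_inj c N)

/-- the matrix of the second part -/
noncomputable def Am (m c N : ℕ) : Matrix (Fin N) (Fin N) ℂ := fun i l =>
  if m ≤ 3 * (i : ℕ) + c then
    ((((3 * (i : ℕ) + c).factorial : ℝ) / ((3 * (i : ℕ) + c - m).factorial : ℝ) *
      (Lagrange.basis (univ : Finset (Fin N)) (nd c N) l).eval (3 * (i : ℝ) + c - m) : ℝ) : ℂ)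
  else 0

theorem sum_basis (m c N : ℕ) (i j : Fin N) (h : m ≤ 3 * (i : ℕ) + c) :
    ∑ l : Fin N, (Lagrange.basis (univ : Finset (Fin N)) (nd c N) l).eval (3 * (i : ℝ) + c - m) *
      Wr c N l j = ((3 * (i : ℕ) + c - m).descFactorial j : ℝ) := by
  have h1 := interp c N (descPochhammer ℝ (j : ℕ)) (by
    rw [Polynomial.degree_eq_natDegree (monic_descPochhammer ℝ j).ne_zero,
      descPochhammer_natDegree]
    exact_mod_cast j.2) (3 * (i : ℝ) + c - m)
  have h2 : (3 * (i : ℝ) + c - m) = ((3 * (i : ℕ) + c - m : ℕ) : ℝ) := by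
    rw [Nat.cast_sub h]
    push_cast
    ring
  have h3 : (descPochhammer ℝ (j : ℕ)).eval (3 * (i : ℝ) + c - m) =
      ((3 * (i : ℕ) + c - m).descFactorial j : ℝ) := by
    rw [h2, descPochhammer_eval_eq_descFactorial]
  rw [← h3, h1]
  exact Finset.sum_congr rfl fun l _ => by rw [eval_nd]; rfl

theorem EM_eq (m c N : ℕ) (y : ℂ) : EM m c N y =
    Matrix.diagonal (fun i : Fin N => (((3 * (i : ℕ) + c).factorial : ℂ))⁻¹) *
      ((1 + y • Am m c N) * (Wr c N).map Complex.ofReal) := by
  ext i j
  rw [Matrix.diagonal_mul, Matrix.add_mul, Matrix.one_mul, Matrix.smul_mul, Matrix.add_apply,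
    Matrix.smul_apply, Matrix.mul_apply]
  have hf : ((3 * (i : ℕ) + c).factorial : ℂ) ≠ 0 := by
    exact_mod_cast Nat.factorial_ne_zero _
  have hg : ((3 * (i : ℕ) + c - m).factorial : ℂ) ≠ 0 := by
    exact_mod_cast Nat.factorial_ne_zero _
  have h1 : (Wr c N).map Complex.ofReal i j = ((3 * (i : ℕ) + c).descFactorial j : ℂ) := by
    simp [Wr]
  rw [h1]
  unfold EM
  by_cases h : m ≤ 3 * (i : ℕ) + c
  · rw [if_pos h]
    have h2 : ∑ l : Fin N, Am m c N i l * (Wr c N).map Complex.ofReal l j =
        ((3 * (i : ℕ) + c).factorial : ℂ) / ((3 * (i : ℕ) + c - m).factorial : ℂ) *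
          ((3 * (i : ℕ) + c - m).descFactorial j : ℂ) := by
      have h3 := sum_basis m c N i j h
      have h4 : ∀ l : Fin N, Am m c N i l * (Wr c N).map Complex.ofReal l j =
          ((((3 * (i : ℕ) + c).factorial : ℝ) / ((3 * (i : ℕ) + c - m).factorial : ℝ) *
            ((Lagrange.basis (univ : Finset (Fin N)) (nd c N) l).eval (3 * (i : ℝ) + c - m) *
              Wr c N l j) : ℝ) : ℂ) := by
        intro l
        unfold Am
        rw [if_pos h, Matrix.map_apply]
        push_cast
        ring
      rw [Finset.sum_congr rfl fun l _ => h4 l, ← Complex.ofReal_sum, ← Finset.mul_sum, h3]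
      push_cast
      ring
    rw [h2, smul_eq_mul]
    field_simp
  · rw [if_neg h]
    have h2 : ∑ l : Fin N, Am m c N i l * (Wr c N).map Complex.ofReal l j = 0 := by
      refine Finset.sum_eq_zero fun l _ => ?_
      unfold Am
      rw [if_neg h, zero_mul]
    rw [h2, smul_zero, add_zero, add_zero]
    field_simp

theorem block (m c k w : ℕ) (h1 : ∀ i < k, 3 * i + c < m)
    (h2 : ∀ i < w, m ≤ 3 * (k + i) + c) (y : ℂ) :
    (1 + y • Am m c (k + w)).det = (1 + y • (TM m c k w).map Complex.ofReal).det := by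
  rw [← Matrix.det_submatrix_equiv_self (finSumFinEquiv : Fin k ⊕ Fin w ≃ Fin (k + w))]
  have h : (1 + y • Am m c (k + w)).submatrix (finSumFinEquiv : Fin k ⊕ Fin w ≃ Fin (k + w))
      finSumFinEquiv = Matrix.fromBlocks 1 0
        (Matrix.of fun i j => y * Am m c (k + w) (Fin.natAdd k i) (Fin.castAdd w j))
        (1 + y • (TM m c k w).map Complex.ofReal) := by
    ext i j
    rcases i with i | i <;> rcases j with j | j
    · have h3 : Am m c (k + w) (Fin.castAdd w i) (Fin.castAdd w j) = 0 := by
        unfold Am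
        rw [if_neg]
        have := h1 i i.2
        simp only [Fin.val_castAdd]
        omega
      simp only [Matrix.submatrix_apply, finSumFinEquiv_apply_left, Matrix.add_apply,
        Matrix.smul_apply, h3, smul_zero, add_zero, Matrix.fromBlocks_apply₁₁]
      rw [Matrix.one_apply, Matrix.one_apply]
      simp
    · have h3 : Am m c (k + w) (Fin.castAdd w i) (Fin.natAdd k j) = 0 := by
        unfold Am
        rw [if_neg]
        have := h1 i i.2
        simp only [Fin.val_castAdd]
        omega
      simp only [Matrix.submatrix_apply, finSumFinEquiv_apply_left, finSumFinEquiv_apply_right,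
        Matrix.add_apply, Matrix.smul_apply, h3, smul_zero, add_zero,
        Matrix.fromBlocks_apply₁₂, Matrix.zero_apply]
      rw [Matrix.one_apply_ne]
      intro hh
      have := congrArg Fin.val hh
      simp only [Fin.val_castAdd, Fin.val_natAdd] at this
      omega
    · simp only [Matrix.submatrix_apply, finSumFinEquiv_apply_left, finSumFinEquiv_apply_right,
        Matrix.add_apply, Matrix.smul_apply, Matrix.fromBlocks_apply₂₁, Matrix.of_apply]
      rw [Matrix.one_apply_ne, zero_add, smul_eq_mul]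
      intro hh
      have := congrArg Fin.val hh
      simp only [Fin.val_castAdd, Fin.val_natAdd] at this
      omega
    · simp only [Matrix.submatrix_apply, finSumFinEquiv_apply_right,
        Matrix.add_apply, Matrix.smul_apply, Matrix.fromBlocks_apply₂₂, Matrix.map_apply]
      have h3 : Am m c (k + w) (Fin.natAdd k i) (Fin.natAdd k j) = ((TM m c k w i j : ℝ) : ℂ) := by
        unfold Am TM
        rw [if_pos (by simp only [Fin.val_natAdd]; exact h2 i i.2)]
        simp only [Fin.val_natAdd]
        congr 2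
        push_cast
        rfl
      rw [h3]
      congr 1
      rw [Matrix.one_apply, Matrix.one_apply]
      simp
  rw [h, Matrix.det_fromBlocks_zero₁₂, Matrix.det_one, one_mul]

theorem t_DET1 : S_DET1 := by
  intro m c k w h1 h2
  refine ⟨(∏ i : Fin (k + w), (((3 * (i : ℕ) + c).factorial : ℂ))⁻¹) *
    (((Wr c (k + w)).det : ℝ) : ℂ), ?_, ?_⟩
  · refine mul_ne_zero (Finset.prod_ne_zero_iff.2 fun i _ => inv_ne_zero ?_) ?_
    · exact_mod_cast Nat.factorial_ne_zero _
    · exact_mod_cast Wr_det c (k + w)
  · intro y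
    have h3 : ((Wr c (k + w)).map Complex.ofReal).det = (((Wr c (k + w)).det : ℝ) : ℂ) :=
      (RingHom.map_det Complex.ofRealHom (Wr c (k + w))).symm
    rw [EM_eq, Matrix.det_mul, Matrix.det_mul, Matrix.det_diagonal, block m c k w h1 h2, h3]
    ring

end Pool.Agent.V7H68.OK
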